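import Pool.Agent.WR2.Done
import Pool.Agent.Helper33_WR2.FN2

/-!
# MP_0f3fac_nt: Wirsching's inequality (Q1) for almost all positive integers

Q1 asks for a constant `c₁ > 0` such that for every positive integer `a` prime to 3 one has
`s_n(a) > c₁ sbar_n` for all large `n`. We prove it off a set of small density: for every `ε > 0`
there are a constant `c > 0` and an index `n₀`, depending on `ε` only, such that
`s_n(a) > c sbar_n` for EVERY `n > n₀` holds for all positive integers `a` prime to 3 outside a set of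
upper density at most `ε`. For the same integers `a` (if `a` is not a periodic point of the map) the
number of the `b ≤ 2^n a` whose orbit contains `a` is at least `c 2^n` for every `n`. In particular
for all positive integers `a` prime to 3 outside a set of natural density zero there is a constant
`c(a) > 0` with `s_n(a) > c(a) sbar_n` for all large `n`, and `a` has a predecessor set of positive
lower density.

The proof transfers the averages over the 3-adic integers to averages over the integers `a ≤ X`: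
for a fixed number of steps the preimages of different integers are disjoint; the densities of the
words of the 3x+1 map are almost invariant under the transfer operator with an error smaller than
every power of the level (Fourier decay in the style of Tao), so infinitely many blocks of steps
together lose only a small proportion of the integers.
-/

set_option autoImplicit false

open scoped ENNReal Topology

open Filter MeasureTheory

noncomputable section

namespace Pool.Agent.Results.MP_0f3fac_nt.AlmostAllIntegers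

/-- The 3x+1 map. -/
def T (n : ℕ) : ℕ := if n % 2 = 1 then (3 * n + 1) / 2 else n / 2

/-- `e l k a`: the number of the positive integers `b` such that `T^(k+l)(b) = a` and exactly `l` of
the numbers `b, T(b), ..., T^(k+l-1)(b)` are odd (so exactly `k` are even). -/
def e (l k a : ℕ) : ℕ :=
  Set.ncard {b : ℕ | 0 < b ∧ T^[k + l] b = a ∧
    ((Finset.range (k + l)).filter (fun i => T^[i] b % 2 = 1)).card = l}

/-- The locally constant extension of `e l k` to the 3-adic integers: its value at `x` is the value at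
the positive integer `r + 3^l`, where `0 ≤ r < 3^l` and `r ≡ x` modulo `3^l`. -/
def eExt (l k : ℕ) (x : ℤ_[3]) : ℕ := e l k (x.appr l + 3 ^ l)

/-- Wirsching's estimating series `s_n(x)`, the sum over `l ≥ 0` of
`e_l(n + ⌊l log₂(3/2)⌋, x)`, with values in `[0, ∞]`. -/
def s (n : ℕ) (x : ℤ_[3]) : ℝ≥0∞ :=
  ∑' l : ℕ, (eExt l (n + ⌊(l : ℝ) * Real.logb 2 (3 / 2)⌋₊) x : ℝ≥0∞)

/-- The normalised Haar measure of the additive group `ℤ_3` (on the Borel sets). -/
def haar : Measure ℤ_[3] := Measure.addHaarMeasure ⊤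

/-- The 3-adic units. -/
def units : Set ℤ_[3] := {x | IsUnit x}

/-- The mean value `sbar_n` of `s_n` over the units: integral over the units divided by the measure
of the set of the units. -/
def sbar (n : ℕ) : ℝ≥0∞ := (∫⁻ x in units, s n x ∂haar) / haar units

open Classical in
/-- The number of the positive integers `b ≤ 2^n a` with `T^j(b) = a` for some `j ≥ 0`. -/
def predCount (n a : ℕ) : ℕ := ((Finset.Icc 1 (2 ^ n * a)).filter (fun b => ∃ j, T^[j] b = a)).card

/-- `Good c n₀ a`: one has `s_n(a) > c sbar_n` for every `n > n₀`, and, if `a` is not a periodic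
point of `T`, at least `c 2^n` of the positive integers `b ≤ 2^n a` have `a` in their orbit, for every
`n ≥ 0`. -/
def Good (c : ℝ) (n₀ a : ℕ) : Prop :=
  (∀ n, n₀ < n → ENNReal.ofReal c * sbar n < s n (a : ℤ_[3])) ∧
  ((∀ p, 0 < p → T^[p] a ≠ a) → ∀ n, c * 2 ^ n ≤ (predCount n a : ℝ))

/-- `GoodSome a`: there are `c > 0` and `n₀` with `s_n(a) > c sbar_n` for every `n > n₀`, and there is
`c > 0` such that for every `n ≥ 0` at least `c 2^n` of the positive integers `b ≤ 2^n a` have `a` in
their orbit. -/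
def GoodSome (a : ℕ) : Prop :=
  (∃ c : ℝ, 0 < c ∧ ∃ n₀ : ℕ, ∀ n, n₀ < n → ENNReal.ofReal c * sbar n < s n (a : ℤ_[3])) ∧
  (∃ c : ℝ, 0 < c ∧ ∀ n, c * 2 ^ n ≤ (predCount n a : ℝ))

theorem s_eq : s = WIR.sP := rfl

theorem sbar_eq : sbar = WIR.sbar := rfl

/-- for a positive integer `a` the value `s_n(a)` is the sum of the numbers `e_l(k, a)` -/
theorem s_natCast (n a : ℕ) (ha : 0 < a) : s n (a : ℤ_[3]) = WR2.sN n a := by
  rw [s_eq]
  unfold WIR.sP WR2.sN
  refine tsum_congr ?_
  intro l
  have h1 := WIR.done_apr l (n + ⌊(l : ℝ) * Real.logb 2 (3 / 2)⌋₊) (a : ℤ_[3])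
  have h2 := WIR.done_flo.1 n l
  have h3 := WIR.done_cod (WIR.Mz n l) l a ha
  rw [h1, h2, h3, map_natCast]

open Classical in
/-- the uniform statement for one integer -/
theorem good_of (c0 : ℝ) (hc0 : 0 < c0) (n₀ a : ℕ) (ha : 0 < a) (h : WR2.H33.Dense c0 n₀ a) :
    Good (min (c0 / 64) (1 / 2 ^ n₀)) n₀ a := by
  have hc : 0 < min (c0 / 64) (1 / 2 ^ n₀ : ℝ) := by positivity
  have hc1 : min (c0 / 64) (1 / 2 ^ n₀ : ℝ) ≤ c0 / 64 := min_le_left _ _
  have hc2 : min (c0 / 64) (1 / 2 ^ n₀ : ℝ) ≤ 1 / 2 ^ n₀ := min_le_right _ _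
  refine ⟨?_, ?_⟩
  · intro n hn
    rw [s_natCast n a ha, sbar_eq]
    exact WR2.H33.dense_s WR2.done_sbu c0 hc0 n₀ a h _ hc hc1 n hn
  · intro hper
    have h1 : ∀ n L : ℕ, ∑ l ∈ Finset.range L, WIR.uT (WIR.Mz n l) l a
        ≤ 1 * ((Finset.Icc 1 (2 ^ n * a)).filter (fun b => ∃ j, WIR.T^[j] b = a)).card := by
      intro n L
      rw [one_mul]
      exact WR2.done_pdc n L a ha hper
    refine WR2.H33.dense_pred c0 hc0 n₀ a 1 ha one_pos h h1 _ hc ?_ hc2
    push_cast
    linarith

/-- the statement with constants depending on the integer -/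
theorem goodSome_of (c0 : ℝ) (hc0 : 0 < c0) (n₀ a : ℕ) (ha : 0 < a)
    (h : WR2.H33.Dense c0 n₀ a) : GoodSome a := by
  refine ⟨?_, ?_⟩
  · have h1 := (good_of c0 hc0 n₀ a ha h).1
    exact ⟨min (c0 / 64) (1 / 2 ^ n₀), by positivity, n₀, h1⟩
  · obtain ⟨K, hK, hKb⟩ := WR2.H33.pdd WR2.done_pre WIR.done_flo a ha
    have hKr : (0 : ℝ) < K := by exact_mod_cast hK
    have hc : 0 < min (c0 / K) (1 / 2 ^ n₀ : ℝ) := by positivity
    have hc1 : min (c0 / K) (1 / 2 ^ n₀ : ℝ) * K ≤ c0 := by
      calc min (c0 / K) (1 / 2 ^ n₀ : ℝ) * K ≤ c0 / K * K := by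
            gcongr
            exact min_le_left _ _
        _ = c0 := by field_simp
    exact ⟨_, hc, WR2.H33.dense_pred c0 hc0 n₀ a K ha hK h hKb _ hc hc1 (min_le_right _ _)⟩

open Classical in
/-- **Theorem.** (1) `sbar_n` is positive and finite for `n ≥ 1`. (2) For every `ε > 0` there are
`c > 0` and `n₀` such that for all large `X` all but at most `ε X` of the positive integers `a ≤ X`
prime to 3 satisfy `Good c n₀ a`. (3) The set of the positive integers `a` prime to 3 which do not
satisfy `GoodSome a` has natural density zero. -/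
theorem result :
    (∀ n, 1 ≤ n → 0 < sbar n ∧ sbar n < ⊤) ∧
    (∀ ε : ℝ, 0 < ε → ∃ c : ℝ, 0 < c ∧ ∃ n₀ X₀ : ℕ, ∀ X : ℕ, X₀ ≤ X →
      (((Finset.Icc 1 X).filter (fun a => ¬ 3 ∣ a ∧ ¬ Good c n₀ a)).card : ℝ) ≤ ε * X) ∧
    Tendsto (fun X : ℕ =>
      (((Finset.Icc 1 X).filter (fun a => ¬ 3 ∣ a ∧ ¬ GoodSome a)).card : ℝ) / X)
      atTop (𝓝 0) := by
  have hsb : ∀ n, 1 ≤ n → 0 < sbar n ∧ sbar n < ⊤ := WIR.done_sbr.1
  have hcor := WR2.H33.cor_allX WR2.done_cor
  refine ⟨hsb, ?_, ?_⟩
  · intro ε hε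
    obtain ⟨c, hc, n₀, X₀, h⟩ := hcor ε hε
    refine ⟨min (c / 64) (1 / 2 ^ n₀), by positivity, n₀, X₀, ?_⟩
    intro X hX
    refine le_trans ?_ (h X hX)
    have hsub : (Finset.Icc 1 X).filter
        (fun a => ¬ 3 ∣ a ∧ ¬ Good (min (c / 64) (1 / 2 ^ n₀)) n₀ a) ⊆
        (Finset.Icc 1 X).filter (fun a => ¬ 3 ∣ a ∧ ¬ WR2.H33.Dense c n₀ a) := by
      intro a ha
      rw [Finset.mem_filter] at ha ⊢
      refine ⟨ha.1, ha.2.1, ?_⟩
      intro hg
      exact ha.2.2 (good_of c hc n₀ a (Finset.mem_Icc.mp ha.1).1 hg)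
    exact_mod_cast Finset.card_le_card hsub
  · rw [Metric.tendsto_atTop]
    intro ε hε
    obtain ⟨c, hc, n₀, X₀, h⟩ := hcor (ε / 2) (by positivity)
    refine ⟨max X₀ 1, ?_⟩
    intro X hX
    have hX0 : X₀ ≤ X := le_trans (le_max_left _ _) hX
    have hX1 : 1 ≤ X := le_trans (le_max_right _ _) hX
    have hXr : (0 : ℝ) < X := by exact_mod_cast hX1
    have h3 := h X hX0
    have hsub : (Finset.Icc 1 X).filter (fun a => ¬ 3 ∣ a ∧ ¬ GoodSome a) ⊆
        (Finset.Icc 1 X).filter (fun a => ¬ 3 ∣ a ∧ ¬ WR2.H33.Dense c n₀ a) := by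
      intro a ha
      rw [Finset.mem_filter] at ha ⊢
      refine ⟨ha.1, ha.2.1, ?_⟩
      intro hg
      exact ha.2.2 (goodSome_of c hc n₀ a (Finset.mem_Icc.mp ha.1).1 hg)
    have h4 : (((Finset.Icc 1 X).filter (fun a => ¬ 3 ∣ a ∧ ¬ GoodSome a)).card : ℝ)
        ≤ ε / 2 * X := by
      refine le_trans ?_ h3
      exact_mod_cast Finset.card_le_card hsub
    rw [Real.dist_eq, sub_zero, abs_of_nonneg (by positivity)]
    calc (((Finset.Icc 1 X).filter (fun a => ¬ 3 ∣ a ∧ ¬ GoodSome a)).card : ℝ) / X ≤ ε / 2 := by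
          rw [div_le_iff₀ hXr]
          exact h4
      _ < ε := by linarith

end Pool.Agent.Results.MP_0f3fac_nt.AlmostAllIntegers
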