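import Pool.Agent.WIR.Done

/-!
# MP_0f3fac_nt: Wirsching's averages converge almost everywhere

For Haar-almost every 3-adic unit `a` the quotient `s_n(a) / sbar_n` of Wirsching's estimating
series by its mean over the units converges, as `n → ∞`, to a limit `w(a)` with `0 < w(a) < ∞`. The
mean of the density `w` over the units is `1`, and the convergence also holds in `L¹`. In
particular, for every `δ > 0` there is a constant `c > 0` such that `s_n(a) > c sbar_n` for all
large `n`, for all units `a` outside a set of measure at most `δ`.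

The tool is a polynomial (of every order) bound for the Fourier coefficients of the words of the 3x+1
map at the frequencies prime to 3, in the style of Tao's work on the 3x+1 problem.
-/

set_option autoImplicit false

open scoped ENNReal Topology

open Filter MeasureTheory

noncomputable section

namespace Pool.Agent.Results.MP_0f3fac_nt.AlmostEverywhere

/-- The 3x+1 map. -/
def T (n : ℕ) : ℕ := if n % 2 = 1 then (3 * n + 1) / 2 else n / 2

/-- `e l k a`: the number of the positive integers `b` such that `T^(k+l)(b) = a` and exactly `l` of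
the numbers `b, T(b), ..., T^(k+l-1)(b)` are odd (so exactly `k` are even). -/
def e (l k a : ℕ) : ℕ :=
  Set.ncard {b : ℕ | 0 < b ∧ T^[k + l] b = a ∧
    ((Finset.range (k + l)).filter (fun i => T^[i] b % 2 = 1)).card = l}

/-- The locally constant extension of `e l k` to the 3-adic integers: its value at `x` is the value at
the positive integer `r + 3^l`, where `0 ≤ r < 3^l` and `r ≡ x` modulo `3^l`. -/
def eExt (l k : ℕ) (x : ℤ_[3]) : ℕ := e l k (x.appr l + 3 ^ l)

/-- Wirsching's estimating series `s_n(x)`, the sum over `l ≥ 0` of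
`e_l(n + ⌊l log₂(3/2)⌋, x)`, with values in `[0, ∞]`. -/
def s (n : ℕ) (x : ℤ_[3]) : ℝ≥0∞ :=
  ∑' l : ℕ, (eExt l (n + ⌊(l : ℝ) * Real.logb 2 (3 / 2)⌋₊) x : ℝ≥0∞)

/-- The normalised Haar measure of the additive group `ℤ_3` (on the Borel sets). -/
def haar : Measure ℤ_[3] := Measure.addHaarMeasure ⊤

/-- The 3-adic units. -/
def units : Set ℤ_[3] := {x | IsUnit x}

/-- The mean value `sbar_n` of `s_n` over the units: integral over the units divided by the measure
of the set of the units. -/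
def sbar (n : ℕ) : ℝ≥0∞ := (∫⁻ x in units, s n x ∂haar) / haar units

theorem s_eq : s = WIR.sP := rfl

theorem sbar_eq : sbar = WIR.sbar := rfl

/-- the exceptional set has small measure -/
theorem small_set (w : ℤ_[3] → ℝ≥0∞) (hw : Measurable w)
    (h : ∀ᵐ x ∂(haar.restrict units), 0 < w x ∧ w x < ⊤ ∧
      Tendsto (fun n => s n x / sbar n) atTop (𝓝 (w x)))
    (hfin : haar units ≠ ⊤) (hsb : ∀ n, 1 ≤ n → 0 < sbar n ∧ sbar n < ⊤)
    (hmu : MeasurableSet units) (δ : ℝ≥0∞) (hδ : 0 < δ) :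
    ∃ c : ℝ≥0∞, 0 < c ∧ haar {x ∈ units | ¬ ∃ n₀ : ℕ, ∀ n, n₀ < n → c * sbar n < s n x} ≤ δ := by
  set ν := haar.restrict units with hν
  have hνfin : ν Set.univ ≠ ⊤ := by
    rw [hν, Measure.restrict_apply_univ]
    exact hfin
  set A : ℕ → Set ℤ_[3] := fun k => {x | w x ≤ ((k : ℝ≥0∞) + 1)⁻¹} with hA
  have hAm : ∀ k, MeasurableSet (A k) := fun k => measurableSet_le hw measurable_const
  have hanti : Antitone A := by
    intro i j hij x hx
    simp only [hA, Set.mem_ofPred_eq] at hx ⊢
    refine hx.trans ?_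
    rw [ENNReal.inv_le_inv]
    gcongr
  have hinter : ν (⋂ k, A k) = 0 := by
    have h1 : ∀ᵐ x ∂ν, x ∉ ⋂ k, A k := by
      filter_upwards [h] with x hx hmem
      have h2 : w x ≤ 0 := by
        refine ge_of_tendsto' (x := atTop) (f := fun k : ℕ => ((k : ℝ≥0∞) + 1)⁻¹) ?_ ?_
        · have h3 := ENNReal.tendsto_inv_nat_nhds_zero
          have h4 := (tendsto_add_atTop_iff_nat 1).mpr h3
          refine h4.congr ?_
          intro k
          push_cast
          rfl
        · intro k
          have := Set.mem_iInter.mp hmem k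
          simpa [hA] using this
      exact absurd h2 (not_le.mpr hx.1)
    rw [ae_iff] at h1
    have h2 : {a | ¬ a ∉ ⋂ k, A k} = ⋂ k, A k := by
      ext a
      simp
    rw [h2] at h1
    exact h1
  have htend : Tendsto (fun k => ν (A k)) atTop (𝓝 0) := by
    have h1 := tendsto_measure_iInter_atTop (μ := ν) (s := A)
      (fun k => (hAm k).nullMeasurableSet) hanti ⟨0, by
        exact ne_top_of_le_ne_top hνfin (measure_mono (Set.subset_univ _))⟩
    rw [hinter] at h1
    exact h1
  obtain ⟨k, hk⟩ := ((tendsto_order.mp htend).2 δ hδ).exists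
  refine ⟨((k : ℝ≥0∞) + 1)⁻¹, by simp, ?_⟩
  have hsub : ν {x | ¬ ∃ n₀ : ℕ, ∀ n, n₀ < n → ((k : ℝ≥0∞) + 1)⁻¹ * sbar n < s n x} ≤ ν (A k) := by
    refine measure_mono_ae ?_
    filter_upwards [h] with x hx hmem
    by_contra hcon
    have h2 : ((k : ℝ≥0∞) + 1)⁻¹ < w x := by
      have : ¬ (w x ≤ ((k : ℝ≥0∞) + 1)⁻¹) := hcon
      exact lt_of_not_ge this
    have h3 := (tendsto_order.mp hx.2.2).1 _ h2
    obtain ⟨n0, hn0⟩ := eventually_atTop.mp h3
    apply hmem
    refine ⟨n0, ?_⟩
    intro n hn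
    have h4 := hn0 n hn.le
    have h5 := hsb n (by omega)
    exact (ENNReal.lt_div_iff_mul_lt (Or.inl h5.1.ne') (Or.inl h5.2.ne)).mp h4
  have hrew : haar {x ∈ units | ¬ ∃ n₀ : ℕ, ∀ n, n₀ < n → ((k : ℝ≥0∞) + 1)⁻¹ * sbar n < s n x}
      = ν {x | ¬ ∃ n₀ : ℕ, ∀ n, n₀ < n → ((k : ℝ≥0∞) + 1)⁻¹ * sbar n < s n x} := by
    rw [hν, Measure.restrict_apply' hmu]
    congr 1
    ext x
    simp only [Set.mem_inter_iff, Set.mem_ofPred_eq]
    tauto
  rw [hrew]
  exact hsub.trans hk.le

/-- **Theorem.** There is a measurable function `w` of mean value 1 on the units such that for almost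
every 3-adic unit `x`: `0 < w(x) < ∞` and `s_n(x) / sbar_n → w(x)`; the convergence holds also in
`L¹` (for values in `[0, ∞]`, `|u - v| = (u - v) + (v - u)` with truncated subtraction). In particular
for every `δ > 0` there is `c > 0` such that for all units `x` outside a set of measure `δ`,
`s_n(x) > c sbar_n` for all large `n`. -/
theorem result :
    (∀ n, 1 ≤ n → 0 < sbar n ∧ sbar n < ⊤) ∧
    (∃ w : ℤ_[3] → ℝ≥0∞, Measurable w ∧ (∫⁻ x in units, w x ∂haar) / haar units = 1 ∧
      (∀ᵐ x ∂(haar.restrict units), 0 < w x ∧ w x < ⊤ ∧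
        Tendsto (fun n => s n x / sbar n) atTop (𝓝 (w x))) ∧
      Tendsto (fun n => ∫⁻ x in units, ((s n x / sbar n - w x) + (w x - s n x / sbar n)) ∂haar)
        atTop (𝓝 0)) ∧
    (∀ δ : ℝ≥0∞, 0 < δ → ∃ c : ℝ≥0∞, 0 < c ∧
      haar {x ∈ units | ¬ ∃ n₀ : ℕ, ∀ n, n₀ < n → c * sbar n < s n x} ≤ δ) := by
  have hsb : ∀ n, 1 ≤ n → 0 < sbar n ∧ sbar n < ⊤ := WIR.done_sbr.1
  obtain ⟨w, hw1, hw2, hw3, hw4, -⟩ := WIR.done_fin
  refine ⟨hsb, ⟨w, hw1, hw2, hw3, hw4⟩, ?_⟩
  intro δ hδ
  have h1 : haar units = 2 / 3 := WIR.done_uts.2.1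
  refine small_set w hw1 hw3 ?_ hsb WIR.done_uts.1 δ hδ
  rw [h1]
  exact ENNReal.div_ne_top (by norm_num) (by norm_num)

end Pool.Agent.Results.MP_0f3fac_nt.AlmostEverywhere
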