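import Pool.Agent.WR3.Done
import Pool.Agent.Helper33_WR3.FNL
import Pool.Agent.Helper33_WR3.FN3

/-!
# MP_0f3fac_nt: the limit of `s_n(a) / sbar_n` exists for every positive integer `a`

Q1 asks for a constant `c₁ > 0` such that for every positive integer `a` prime to 3 one has
`s_n(a) > c₁ sbar_n` for all large `n`. We prove that for EVERY positive integer `a` the quotient
`s_n(a) / sbar_n` converges, to `w(a)` say, so that Q1 is equivalent to `inf w(a) > 0` over the integers
`a` prime to 3; that the set of all the predecessors of `a` has a natural density, and that this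
density is positive if and only if `w(a) > 0`; that there is a gap: either `w(a) > 0` or `s_n(a)` is
smaller than `sbar_n` times every power of `1/n`; that `w(a) ≥ c(ε) > 0` for all `a` prime to 3 off a set
of upper density `ε`; and that for every exponent `A` all integers off a set of natural density at most
`C_A / (log y)^A` have some `a ≤ y` with `w(a) > 0` in their orbit. More generally every set of positive
integers which is invariant under the 3x+1 map beyond some point has a natural density, and if it is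
zero the set has at most `C_A X / (log X)^A` elements up to `X` for every `A`.

The counting function `F` of such a set satisfies `F(x) = F(x/2) + F(3x/2)/3 + O(x / (log x)^A)` for
every `A` (compare `t + 1` backward steps from `x` with `t` backward steps from `x/2` and from `3x/2`;
the error is controlled by the Fourier decay of the words of the 3x+1 map, in the style of Tao), and a
bounded almost harmonic function of this kind converges (maximum principle; `3^k/2^r` near 1).
-/

set_option autoImplicit false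

open scoped ENNReal Topology

open Filter MeasureTheory

noncomputable section

namespace Pool.Agent.Results.MP_0f3fac_nt.LimitForEveryInteger

/-- The 3x+1 map. -/
def T (n : ℕ) : ℕ := if n % 2 = 1 then (3 * n + 1) / 2 else n / 2

/-- `e l k a`: the number of the positive integers `b` such that `T^(k+l)(b) = a` and exactly `l` of
the numbers `b, T(b), ..., T^(k+l-1)(b)` are odd (so exactly `k` are even). -/
def e (l k a : ℕ) : ℕ :=
  Set.ncard {b : ℕ | 0 < b ∧ T^[k + l] b = a ∧
    ((Finset.range (k + l)).filter (fun i => T^[i] b % 2 = 1)).card = l}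

/-- The locally constant extension of `e l k` to the 3-adic integers: its value at `x` is the value at
the positive integer `r + 3^l`, where `0 ≤ r < 3^l` and `r ≡ x` modulo `3^l`. -/
def eExt (l k : ℕ) (x : ℤ_[3]) : ℕ := e l k (x.appr l + 3 ^ l)

/-- Wirsching's estimating series `s_n(x)`, the sum over `l ≥ 0` of
`e_l(n + ⌊l log₂(3/2)⌋, x)`, with values in `[0, ∞]`. -/
def s (n : ℕ) (x : ℤ_[3]) : ℝ≥0∞ :=
  ∑' l : ℕ, (eExt l (n + ⌊(l : ℝ) * Real.logb 2 (3 / 2)⌋₊) x : ℝ≥0∞)

/-- The normalised Haar measure of the additive group `ℤ_3` (on the Borel sets). -/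
def haar : Measure ℤ_[3] := Measure.addHaarMeasure ⊤

/-- The 3-adic units. -/
def units : Set ℤ_[3] := {x | IsUnit x}

/-- The mean value `sbar_n` of `s_n` over the units: integral over the units divided by the measure
of the set of the units. -/
def sbar (n : ℕ) : ℝ≥0∞ := (∫⁻ x in units, s n x ∂haar) / haar units

/-- The assertion of the problem (Q1): there is a constant `c₁ > 0` such that for every positive
integer `a` prime to 3 there is `n₀` with `s_n(a) > c₁ sbar_n` for all `n > n₀`. -/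
def Q1 : Prop := ∃ c₁ : ℝ, 0 < c₁ ∧ ∀ a : ℕ, 0 < a → ¬ 3 ∣ a →
  ∃ n₀ : ℕ, ∀ n, n₀ < n → ENNReal.ofReal c₁ * sbar n < s n (a : ℤ_[3])

/-- The predecessor set of `a`: the integers `b` with `T^j(b) = a` for some `j ≥ 0`. -/
def pred (a : ℕ) : Set ℕ := {b | ∃ j, T^[j] b = a}

open Classical in
/-- `HasDensity S d`: the number of the elements of `S` in `[1, X]`, divided by `X`, tends to `d`. -/
def HasDensity (S : Set ℕ) (d : ℝ) : Prop :=
  Tendsto (fun X : ℕ => (((Finset.Icc 1 X).filter (fun b => b ∈ S)).card : ℝ) / X) atTop (𝓝 d)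

theorem T_eq : T = WIR.T := rfl

theorem s_eq : s = WIR.sP := rfl

theorem sbar_eq : sbar = WIR.sbar := rfl

/-- for a positive integer `a` the value `s_n(a)` is the sum of the numbers `e_l(k, a)` -/
theorem s_natCast (n a : ℕ) (ha : 0 < a) : s n (a : ℤ_[3]) = WR2.sN n a := by
  rw [s_eq]
  unfold WIR.sP WR2.sN
  refine tsum_congr ?_
  intro l
  have h1 := WIR.done_apr l (n + ⌊(l : ℝ) * Real.logb 2 (3 / 2)⌋₊) (a : ℤ_[3])
  have h2 := WIR.done_flo.1 n l
  have h3 := WIR.done_cod (WIR.Mz n l) l a ha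
  rw [h1, h2, h3, map_natCast]

theorem density_of (S : Set ℕ) (d : ℝ)
    (h : Tendsto (fun x : ℝ => WR3.NS S x / x) atTop (𝓝 d)) : HasDensity S d := by
  have h1 := WR3.H33.NS_nat S d h
  refine h1.congr fun X => ?_
  unfold WR3.NS
  rw [Nat.floor_natCast]

theorem ineq_iff (c : ℝ) (a : ℕ) (ha : 0 < a) :
    (∃ n₀ : ℕ, ∀ n, n₀ < n → ENNReal.ofReal c * sbar n < s n (a : ℤ_[3])) ↔ WR3.H33.Ineq c a := by
  unfold WR3.H33.Ineq
  simp only [s_natCast _ a ha, sbar_eq]

open Classical in
/-- **Theorem.** There is a function `w` with the following properties. (1) For every positive integer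
`a` the quotient `s_n(a) / sbar_n` tends to `w(a)`, `0 ≤ w(a) < ∞`. (2)
`2 w(a) = w(2a) + 3 w((2a-1)/3)`, the last term only if `3 ∣ 2a-1`. (3) For every positive integer `a`
the predecessor set of `a` has a natural density, which is positive if and only if `w(a) > 0`. (4) If
`w(a) = 0` then for every `A` there is `C` with `s_n(a) ≤ C n^(-A) sbar_n` for all large `n`. (5) For
every `ε > 0` there is `c > 0` such that for all large `X` at most `ε X` integers `a ≤ X` prime to 3 have
`w(a) < c`. (6) `Q1` holds if and only if `w(a) ≥ c` for some `c > 0` and all positive integers `a` prime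
to 3. (7) For every `A` there is `C` such that for every `y ≥ 2` the set of the `b` whose orbit contains
no `a ≤ y` with `w(a) > 0` has a natural density, which is at most `C / (log y)^A`. (8) Every set `S` such
that `b ∈ S ↔ T(b) ∈ S` for all `b > B` (for some `B`) has a natural density `d`, and if `d = 0` then for
every `A` there is `C` such that `S` has at most `C X / (log X)^A` elements up to `X` for all large `X`. -/
theorem result :
    ∃ w : ℕ → ℝ,
      (∀ a, 0 < a → 0 ≤ w a ∧
        Tendsto (fun n : ℕ => s n (a : ℤ_[3]) / sbar n) atTop (𝓝 (ENNReal.ofReal (w a)))) ∧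
      (∀ a, 0 < a → 2 * w a = w (2 * a) + (if 3 ∣ 2 * a - 1 then 3 * w ((2 * a - 1) / 3) else 0)) ∧
      (∀ a, 0 < a → ∃ d : ℝ, HasDensity (pred a) d ∧ (0 < w a ↔ 0 < d)) ∧
      (∀ a, 0 < a → w a = 0 → ∀ A : ℕ, ∃ C : ℝ, ∃ n₁ : ℕ, ∀ n, n₁ ≤ n →
        s n (a : ℤ_[3]) ≤ ENNReal.ofReal (C / (n : ℝ) ^ A) * sbar n) ∧
      (∀ ε : ℝ, 0 < ε → ∃ c : ℝ, 0 < c ∧ ∃ X₀ : ℕ, ∀ X : ℕ, X₀ ≤ X →
        (((Finset.Icc 1 X).filter (fun a => ¬ 3 ∣ a ∧ w a < c)).card : ℝ) ≤ ε * X) ∧
      (Q1 ↔ ∃ c : ℝ, 0 < c ∧ ∀ a, 0 < a → ¬ 3 ∣ a → c ≤ w a) ∧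
      (∀ A : ℕ, ∃ C : ℝ, ∀ y : ℕ, 2 ≤ y → ∃ d : ℝ, d ≤ C / Real.log y ^ A ∧
        HasDensity {b | ∀ j, ¬ (T^[j] b ≤ y ∧ 0 < w (T^[j] b))} d) ∧
      (∀ (S : Set ℕ) (B : ℕ), (∀ b, B < b → (b ∈ S ↔ T b ∈ S)) →
        ∃ d : ℝ, HasDensity S d ∧ (d = 0 → ∀ A : ℕ, ∃ C : ℝ, ∃ X₀ : ℕ, ∀ X : ℕ, X₀ ≤ X →
          (((Finset.Icc 1 X).filter (fun b => b ∈ S)).card : ℝ) ≤ C * X / Real.log X ^ A)) := by
  obtain ⟨w, h1, h2, h3, h4, h5, h6, h7⟩ := WR3.H33.fin WIR.done_sbr WIR.done_tyb WR3.done_mcv
    WR3.done_slb WR3.done_rho WR3.done_rsn WR3.done_rfu WR3.done_rli WR3.done_den WR3.done_dns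
    WR3.done_prh WR3.done_alx WR3.done_tao WR3.done_min WR3.done_har WR3.done_rmu WR3.done_rty
  refine ⟨w, ?_, h2, ?_, ?_, h5, ?_, ?_, ?_⟩
  · intro a ha
    obtain ⟨h, h'⟩ := h1 a ha
    refine ⟨h, ?_⟩
    simp only [s_natCast _ a ha, sbar_eq]
    exact h'
  · intro a ha
    obtain ⟨d, hd, hiff⟩ := h3 a ha
    exact ⟨d, density_of _ d hd, hiff⟩
  · intro a ha hw A
    obtain ⟨C, n₁, h⟩ := h4 a ha hw A
    refine ⟨C, n₁, fun n hn => ?_⟩
    rw [s_natCast _ a ha, sbar_eq]
    exact h n hn
  · rw [← h6]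
    unfold Q1
    constructor
    · rintro ⟨c, hc, h⟩
      exact ⟨c, hc, fun a ha h3 => (ineq_iff c a ha).1 (h a ha h3)⟩
    · rintro ⟨c, hc, h⟩
      exact ⟨c, hc, fun a ha h3 => (ineq_iff c a ha).2 (h a ha h3)⟩
  · intro A
    obtain ⟨C, hC⟩ := h7 A
    refine ⟨C, fun y hy => ?_⟩
    obtain ⟨d, hd, hd'⟩ := hC y hy
    exact ⟨d, hd, density_of _ d hd'⟩
  · intro S B hS
    obtain ⟨d, -, hd⟩ := WR3.done_den S B hS
    refine ⟨d, density_of S d hd, fun hd0 A => ?_⟩
    rw [hd0] at hd
    obtain ⟨C, x1, -, hC⟩ := WR3.H33.gap_set WR3.done_min WR3.done_hsd S B hS hd A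
    obtain ⟨X₀, hX₀⟩ := exists_nat_ge x1
    refine ⟨C, X₀, fun X hX => ?_⟩
    have h := hC (X : ℝ) (hX₀.trans (by exact_mod_cast hX))
    unfold WR3.NS at h
    rw [Nat.floor_natCast] at h
    exact h

end Pool.Agent.Results.MP_0f3fac_nt.LimitForEveryInteger
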