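import Pool.Agent.WR4.Done
import Pool.Agent.Helper33_WR4.F5
import Pool.Agent.Helper33_WR4.SYB

/-!
# MP_0f3fac_nt: the values at the integers are distributed like the values on the 3-adic units

Let `w(a)` be the limit of `s_n(a) / sbar_n` for a positive integer `a`, and `v(x)` the limit of
`s_n(x) / sbar_n` for almost every 3-adic unit `x`; it is equal to the limit of `(2/3) 3^m P_m(x)`,
where `P_m(x)` is the probability that the Syracuse random variable modulo `3^m` is `x mod 3^m`. We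
prove that the pairs `(a, w(a))`, `a` prime to 3,
are distributed in `Z_3 x R` (in the sense of natural density) like the pairs `(x, v(x))` (in the sense
of Haar measure). It follows that for a constant `c > 0` three assertions are equivalent: (i) the
inequality of Q1 with every constant `c' < c` holds for all positive integers prime to 3 off a set of
natural density 0; (ii) the inequality of Q2 with every constant `c' < c` holds for almost every 3-adic
unit; (iii) the Syracuse random variables of Tao satisfy `3^n P(Syrac(Z/3^n Z) = z) ≥ 3c/2` for all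
`n ≥ 1` and all units `z`. In particular Q1 with the constant `c` implies (ii) and (iii), and hence
the covering property for mixed power sums: for all large `n` every unit modulo `3^n` is of the form
`sum_(i<n) 3^i 2^(e_i)` with `6n > e_0 > ... > e_(n-1) ≥ 0`. Since (iii) is a condition for finitely
many rational numbers for each `n`, it gives explicit upper bounds for the possible constants in Q1
and Q2: `c < 1/22`.

Proof of the distribution result: for the integers `a ≤ X` that are large and have no small predecessor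
(all but `o(X)` of them) the total distance between the counting functions of the trees of `a` and a
multiple of `x W_m(a)` is an almost subharmonic function of `log x`, uniformly, because every orbit meets
at most `log X` such integers; by the maximum principle it is enough to bound it at `x = X^(1/200)`,
where it is an average over residue classes.
-/

set_option autoImplicit false

open scoped ENNReal Topology

open Filter MeasureTheory

noncomputable section

namespace Pool.Agent.Results.MP_0f3fac_nt.ValueDistribution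

/-- The 3x+1 map. -/
def T (n : ℕ) : ℕ := if n % 2 = 1 then (3 * n + 1) / 2 else n / 2

/-- `e l k a`: the number of the positive integers `b` such that `T^(k+l)(b) = a` and exactly `l` of
the numbers `b, T(b), ..., T^(k+l-1)(b)` are odd (so exactly `k` are even). -/
def e (l k a : ℕ) : ℕ :=
  Set.ncard {b : ℕ | 0 < b ∧ T^[k + l] b = a ∧
    ((Finset.range (k + l)).filter (fun i => T^[i] b % 2 = 1)).card = l}

/-- The locally constant extension of `e l k` to the 3-adic integers: its value at `x` is the value at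
the positive integer `r + 3^l`, where `0 ≤ r < 3^l` and `r ≡ x` modulo `3^l`. -/
def eExt (l k : ℕ) (x : ℤ_[3]) : ℕ := e l k (x.appr l + 3 ^ l)

/-- Wirsching's estimating series `s_n(x)`, the sum over `l ≥ 0` of
`e_l(n + ⌊l log₂(3/2)⌋, x)`, with values in `[0, ∞]`. -/
def s (n : ℕ) (x : ℤ_[3]) : ℝ≥0∞ :=
  ∑' l : ℕ, (eExt l (n + ⌊(l : ℝ) * Real.logb 2 (3 / 2)⌋₊) x : ℝ≥0∞)

/-- The normalised Haar measure of the additive group `ℤ_3` (on the Borel sets). -/
def haar : Measure ℤ_[3] := Measure.addHaarMeasure ⊤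

/-- The 3-adic units. -/
def units : Set ℤ_[3] := {x | IsUnit x}

/-- The mean value `sbar_n` of `s_n` over the units: integral over the units divided by the measure
of the set of the units. -/
def sbar (n : ℕ) : ℝ≥0∞ := (∫⁻ x in units, s n x ∂haar) / haar units

/-- The inequality of the problem with the constant `c`, for `x`: there is `n₀` with
`s_n(x) > c sbar_n` for all `n > n₀`. -/
def Ineq (c : ℝ) (x : ℤ_[3]) : Prop := ∃ n₀ : ℕ, ∀ n, n₀ < n → ENNReal.ofReal c * sbar n < s n x

/-- The distribution of the Syracuse random variable modulo `3^n`: `syr (n + 1) z` is the sum over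
`p ≥ 1` of `2^(-p) syr n y`, where `y` is the class modulo `3^n` with `2^p z = 3 y + 1` (if there is
one). -/
def syr : (n : ℕ) → ZMod (3 ^ n) → ℝ
  | 0, _ => 1
  | n + 1, z => ∑' p : ℕ, (1 / 2 : ℝ) ^ (p + 1) * ∑ y : ZMod (3 ^ n),
      if (2 : ZMod (3 ^ (n + 1))) ^ (p + 1) * z = 3 * ((y.val : ℕ) : ZMod (3 ^ (n + 1))) + 1
        then syr n y else 0

/-- The lower bound for the Syracuse distribution belonging to the constant `c`. -/
def SyrLower (c : ℝ) : Prop :=
  ∀ n : ℕ, 1 ≤ n → ∀ z : ZMod (3 ^ n), IsUnit z → 3 / 2 * c ≤ 3 ^ n * syr n z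

/-- The covering property for mixed power sums. -/
def Covering : Prop :=
  ∃ n₁ : ℕ, ∀ n : ℕ, n₁ ≤ n → ∀ z : ZMod (3 ^ n), IsUnit z →
    ∃ f : ℕ → ℕ, (∀ i : ℕ, i + 1 < n → f (i + 1) < f i) ∧ (∀ i : ℕ, i < n → f i < 6 * n) ∧
      z = ∑ i ∈ Finset.range n, 3 ^ i * 2 ^ f i

open Classical in
/-- `HasDensity S d`: the number of the elements of `S` in `[1, X]`, divided by `X`, tends to `d`. -/
def HasDensity (S : Set ℕ) (d : ℝ) : Prop :=
  Tendsto (fun X : ℕ => (((Finset.Icc 1 X).filter (fun b => b ∈ S)).card : ℝ) / X) atTop (𝓝 d)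

theorem s_eq : s = WIR.sP := rfl

theorem sbar_eq : sbar = WIR.sbar := rfl

theorem syr_eq (n : ℕ) : ∀ z : ZMod (3 ^ n), syr n z = WR4.Sy n z := by
  induction n with
  | zero =>
    intro z
    rfl
  | succ n ih =>
    intro z
    rw [syr, WR4.Sy]
    simp only [ih]

/-- for a positive integer `a` the value `s_n(a)` is the sum of the numbers `e_l(k, a)` -/
theorem s_natCast (n a : ℕ) (ha : 0 < a) : s n (a : ℤ_[3]) = WR2.sN n a := by
  rw [s_eq]
  unfold WIR.sP WR2.sN
  refine tsum_congr ?_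
  intro l
  have h1 := WIR.done_apr l (n + ⌊(l : ℝ) * Real.logb 2 (3 / 2)⌋₊) (a : ℤ_[3])
  have h2 := WIR.done_flo.1 n l
  have h3 := WIR.done_cod (WIR.Mz n l) l a ha
  rw [h1, h2, h3, map_natCast]

theorem ineq_iff (c : ℝ) (a : ℕ) (ha : 0 < a) :
    Ineq c (a : ℤ_[3]) ↔ WR4.H33.In (fun n => WR2.sN n a) c := by
  unfold Ineq WR4.H33.In
  simp only [s_natCast _ a ha, sbar_eq]

theorem card_eq (p q : ℕ → Prop) {ip : DecidablePred p} {iq : DecidablePred q} (X : ℕ)
    (h : ∀ a, 0 < a → (p a ↔ q a)) :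
    ((@Finset.filter ℕ p ip (Finset.Icc 1 X)).card : ℝ)
      = ((@Finset.filter ℕ q iq (Finset.Icc 1 X)).card : ℝ) := by
  congr 2
  exact Finset.filter_congr fun a ha => h a (Finset.mem_Icc.1 ha).1

theorem dens_iff (S : Set ℕ) (q : ℕ → Prop) {iq : DecidablePred q}
    (h : ∀ a, 0 < a → (a ∈ S ↔ q a)) (d : ℝ) :
    HasDensity S d ↔ Tendsto
      (fun X : ℕ => ((@Finset.filter ℕ q iq (Finset.Icc 1 X)).card : ℝ) / X) atTop (𝓝 d) := by
  unfold HasDensity
  refine tendsto_congr fun X => ?_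
  rw [card_eq (fun b => b ∈ S) q X h]

theorem bad_dens (c : ℝ) : HasDensity {a : ℕ | ¬ 3 ∣ a ∧ ¬ Ineq c (a : ℤ_[3])} 0 ↔
    Tendsto (fun X : ℕ => WR4.H33.NB (fun a => WR4.H33.In (fun n => WR2.sN n a) c) X / X) atTop
      (𝓝 0) := by
  unfold WR4.H33.NB
  refine dens_iff _ _ (fun a ha => ?_) 0
  change (¬ 3 ∣ a ∧ ¬ Ineq c (a : ℤ_[3])) ↔ _
  rw [ineq_iff c a ha]

open Classical in
/-- **Theorem.** There are functions `w` and `v` such that (1) `s_n(a) / sbar_n` tends to `w(a)` for every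
positive integer `a`, and (2) `s_n(x) / sbar_n` and `(2/3) 3^m syr m (x mod 3^m)` tend to `v(x)` (as
`n → ∞`, `m → ∞`) for almost every 3-adic unit `x`. (3) For
every residue class `z` modulo `3^k` and every real `r` such that `v` does not take the value `r` on a
set of positive measure in the class, the set of the positive integers `a` in the class, prime to 3,
with `w(a) ≤ r` has a natural density, equal to the measure of the set of the units `x` in the class
with `v(x) ≤ r`. (4) For `c > 0` three assertions are equivalent: the integers `a` prime to 3 without the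
inequality `Ineq c'` have density 0 for every `c' < c`; almost every unit has `Ineq c'` for every
`c' < c`; `SyrLower c`. (5) If `c > 0` and `Ineq c` holds for every positive integer prime to 3 (that is,
Q1 with the constant `c`), then `SyrLower c`. (6) `SyrLower c` for some `c > 0` implies `Covering`. (7) The
integers `a` prime to 3 without `Ineq (1/22)` have positive lower density. -/
theorem result :
    ∃ (w : ℕ → ℝ) (v : ℤ_[3] → ℝ), Measurable v ∧
      (∀ a : ℕ, 0 < a → 0 ≤ w a ∧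
        Tendsto (fun n : ℕ => s n (a : ℤ_[3]) / sbar n) atTop (𝓝 (ENNReal.ofReal (w a)))) ∧
      (∀ᵐ x ∂(haar.restrict units), 0 ≤ v x ∧
        Tendsto (fun n : ℕ => s n x / sbar n) atTop (𝓝 (ENNReal.ofReal (v x))) ∧
        Tendsto (fun m : ℕ => 2 / 3 * (3 ^ m * syr m (PadicInt.toZModPow m x))) atTop
          (𝓝 (v x))) ∧
      (∀ (k : ℕ) (z : ZMod (3 ^ k)) (r : ℝ),
        haar {x | x ∈ units ∧ PadicInt.toZModPow k x = z ∧ v x = r} = 0 →
        HasDensity {a : ℕ | ¬ 3 ∣ a ∧ (a : ZMod (3 ^ k)) = z ∧ w a ≤ r}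
          (haar {x | x ∈ units ∧ PadicInt.toZModPow k x = z ∧ v x ≤ r}).toReal) ∧
      (∀ c : ℝ, 0 < c →
        ((∀ c' : ℝ, 0 < c' → c' < c → HasDensity {a : ℕ | ¬ 3 ∣ a ∧ ¬ Ineq c' (a : ℤ_[3])} 0) ↔
          SyrLower c) ∧
        ((∀ c' : ℝ, 0 < c' → c' < c → ∀ᵐ x ∂(haar.restrict units), Ineq c' x) ↔ SyrLower c)) ∧
      (∀ c : ℝ, 0 < c → (∀ a : ℕ, 0 < a → ¬ 3 ∣ a → Ineq c (a : ℤ_[3])) → SyrLower c) ∧
      ((∃ c : ℝ, 0 < c ∧ SyrLower c) → Covering) ∧
      (∃ δ : ℝ, 0 < δ ∧ ∃ X₀ : ℕ, ∀ X : ℕ, X₀ ≤ X → δ * X ≤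
        (((Finset.Icc 1 X).filter (fun a : ℕ => ¬ 3 ∣ a ∧ ¬ Ineq (1 / 22) (a : ℤ_[3]))).card : ℝ)) := by
  obtain ⟨w, v, hvm, hv0, h1, h2, h2', h3, h4, h5, -⟩ := WR4.H33.fin4 WIR.done_sbr WIR.done_tyb
    WR3.done_mcv WR3.done_slb WR3.done_rho WR3.done_rsn WR3.done_rfu WR4.done_eqd WR2.done_ava
    WIR.done_uts WIR.done_mea WIR.done_wlm WIR.done_aec WR4.done_syf WR4.done_syc WR4.done_sya
    WIR.done_gen
  have hlow : ∀ c : ℝ, SyrLower c ↔ ∀ n : ℕ, 1 ≤ n → ∀ z : ZMod (3 ^ n), IsUnit z →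
      3 / 2 * c ≤ 3 ^ n * WR4.Sy n z := by
    intro c
    unfold SyrLower
    simp only [syr_eq]
  have hA : ∀ c : ℝ, 0 < c →
      ((∀ c' : ℝ, 0 < c' → c' < c → HasDensity {a : ℕ | ¬ 3 ∣ a ∧ ¬ Ineq c' (a : ℤ_[3])} 0) ↔
          SyrLower c) := by
    intro c hc
    rw [hlow c, ← (h4 c).2, ← (h4 c).1, WR4.H33.dens_iff WIR.done_sbr w h1 c hc]
    simp only [bad_dens]
  have hQ : ∀ c : ℝ, 0 < c → (∀ a : ℕ, 0 < a → ¬ 3 ∣ a → Ineq c (a : ℤ_[3])) → SyrLower c := by
    intro c hc h
    refine (hA c hc).1 fun c' hc'0 hc'c => ?_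
    rw [bad_dens]
    refine tendsto_const_nhds.congr fun X => ?_
    symm
    rw [div_eq_zero_iff]
    left
    unfold WR4.H33.NB
    rw [Nat.cast_eq_zero, Finset.card_eq_zero, Finset.filter_eq_empty_iff]
    rintro a ha ⟨ha3, haI⟩
    apply haI
    have ha0 := (Finset.mem_Icc.1 ha).1
    rw [← ineq_iff c' a ha0]
    obtain ⟨n0, hn0⟩ := h a ha0 ha3
    exact ⟨n0, fun n hn => lt_of_le_of_lt
      (mul_le_mul_left (ENNReal.ofReal_le_ofReal hc'c.le) _) (hn0 n hn)⟩
  refine ⟨w, v, hvm, ?_, ?_, ?_, ?_, hQ, ?_, ?_⟩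
  · intro a ha
    obtain ⟨h, h'⟩ := h1 a ha
    refine ⟨h, ?_⟩
    simp only [s_natCast _ a ha, sbar_eq]
    exact h'
  · filter_upwards [h2, h2'] with x hx hx'
    refine ⟨hv0 x, hx, ?_⟩
    simp only [syr_eq]
    exact hx'
  · intro k z r h0
    have hs : ∀ p : ℝ → Prop, {x | x ∈ units ∧ PadicInt.toZModPow k x = z ∧ p (v x)}
        = {x | x ∈ WR4.H33.Vz k z ∧ p (v x)} := by
      intro p
      ext x
      constructor
      · rintro ⟨ha, hb, hc⟩
        exact ⟨⟨ha, hb⟩, hc⟩
      · rintro ⟨⟨ha, hb⟩, hc⟩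
        exact ⟨ha, hb, hc⟩
    have e1 := hs (fun t => t = r)
    have e2 := hs (fun t => t ≤ r)
    rw [e1] at h0
    rw [e2]
    have h := h3 k z r h0
    unfold WR4.H33.NW at h
    refine (dens_iff _ _ (fun a _ => ?_) _).2 h
    unfold WR4.H33.Qz
    change (¬ 3 ∣ a ∧ (a : ZMod (3 ^ k)) = z ∧ w a ≤ r) ↔ _
    rw [and_assoc]
  · intro c hc
    refine ⟨hA c hc, ?_⟩
    rw [hlow c, ← (h4 c).2]
    exact (WR4.H33.ae_iff_in WIR.done_sbr WIR.done_uts v hv0 h2 c hc).symm
  · rintro ⟨c, hc, h⟩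
    rw [hlow c] at h
    exact WR4.done_cov (3 / 2 * c) (by positivity) h
  · have hlt := WR4.H33.syb WR4.done_syf
    obtain ⟨c, hc1, hc2⟩ := exists_between hlt
    have hc3 : 2 / 3 * c < 1 / 22 := by linarith
    have hnot : ¬ ∀ᵐ x ∂(WIR.μ3.restrict WIR.U3), 2 / 3 * c ≤ v x := by
      intro hcon
      have h7 := (h4 (2 / 3 * c)).2.1 hcon 9 (by norm_num) _ WR4.H33.unit14902
      linarith
    obtain ⟨c2, hc4, hc5⟩ := exists_between hc3
    obtain ⟨δ, hδ, X₀, hX₀⟩ := h5 (2 / 3 * c) c2 hc4 hnot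
    refine ⟨δ, hδ, X₀, fun X hX => ?_⟩
    refine (hX₀ X hX).trans ?_
    have h8 : WR4.H33.NW (WR4.H33.Qz 0 0) w c2 X
        ≤ WR4.H33.NB (fun a => WR4.H33.In (fun n => WR2.sN n a) (1 / 22)) X := by
      refine WR4.H33.le_nb w _ c2 (fun a ha hI => ?_) X
      have := WR4.H33.lim_of_in WIR.done_sbr _ (w a) (1 / 22) (h1 a ha).1 (h1 a ha).2 hI
      linarith
    refine h8.trans (le_of_eq ?_)
    unfold WR4.H33.NB
    refine card_eq _ _ X fun a ha => ?_
    rw [ineq_iff (1 / 22) a ha]

end Pool.Agent.Results.MP_0f3fac_nt.ValueDistribution
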